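import Pool.Agent.N347.TC.TwinMain

set_option autoImplicit false

/-!
# Project TC: total colourings from lists that depend only on the classes of twins
-/

namespace Pool.Agent.N347.TC

open Finset

/-- Greedy colouring from lists. -/
theorem greedy_list {V : Type} [Finite V] (H : SimpleGraph V) (d : ℕ)
    (hH : ∀ v, (H.neighborSet v).ncard ≤ d) (L : V → Finset ℕ) (hL : ∀ v, d + 1 ≤ (L v).card) :
    ∃ c : V → ℕ, (∀ v, c v ∈ L v) ∧ ∀ u v, H.Adj u v → c u ≠ c v := by
  classical
  have := Fintype.ofFinite V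
  have hne : ∀ v, (L v).Nonempty := by
    intro v
    rw [← card_pos]
    have := hL v
    omega
  have key : ∀ s : Finset V, ∃ c : V → ℕ, (∀ v, c v ∈ L v) ∧
      ∀ u ∈ s, ∀ v ∈ s, H.Adj u v → c u ≠ c v := by
    intro s
    induction s using Finset.induction_on with
    | empty =>
      choose c hc using hne
      exact ⟨c, hc, by simp⟩
    | insert a s ha ih =>
      obtain ⟨c, hc1, hc⟩ := ih
      have h1 : ((H.neighborSet a).toFinset.image c).card < (L a).card := by
        refine lt_of_le_of_lt card_image_le ?_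
        have := hH a
        have := hL a
        rw [Set.ncard_eq_toFinset_card'] at *
        omega
      obtain ⟨k, hkL, hk⟩ := exists_mem_notMem_of_card_lt_card h1
      have hk2 : ∀ v, H.Adj a v → c v ≠ k := by
        intro v hv h
        exact hk (mem_image.mpr ⟨v, by simpa using hv, h⟩)
      refine ⟨Function.update c a k, fun v => ?_, fun u hu v hv huv => ?_⟩
      · by_cases hva : v = a
        · subst hva
          rw [Function.update_self]
          exact hkL
        · rw [Function.update_of_ne hva]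
          exact hc1 v
      have hne' := huv.ne
      by_cases hua : u = a
      · subst hua
        rw [Function.update_self, Function.update_of_ne hne'.symm]
        exact fun h => hk2 v huv h.symm
      · by_cases hva : v = a
        · subst hva
          rw [Function.update_self, Function.update_of_ne hne']
          exact fun h => hk2 u huv.symm h
        · rw [Function.update_of_ne hua, Function.update_of_ne hva]
          exact hc u ((mem_insert.mp hu).resolve_left hua) v ((mem_insert.mp hv).resolve_left hva) huv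
  obtain ⟨c, hc1, hc⟩ := key univ
  exact ⟨c, hc1, fun u v h => hc u (mem_univ _) v (mem_univ _) h⟩

/-- Total colourings from lists. -/
theorem list_total {W : Type} [Finite W] (G : SimpleGraph W) (D : ℕ)
    (hD : ∀ x, (G.neighborSet x).ncard ≤ D)
    (hcl : ∀ x, Even (tw G x).ncard ∨
      (G.neighborSet x).ncard * (tw G x).ncard + D ≤ D * (tw G x).ncard)
    (LV : W → Finset ℕ) (LE : Sym2 W → Finset ℕ) (hV : ∀ x, D + 2 ≤ (LV x).card)
    (hE : ∀ x y, G.Adj x y → D + 2 ≤ (LE s(x, y)).card)
    (hVi : ∀ x, ∀ x' ∈ tw G x, LV x' = LV x)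
    (hEi : ∀ x y x' y', G.Adj x y → x' ∈ tw G x → y' ∈ tw G y → LE s(x', y') = LE s(x, y)) :
    ∃ (a : W → ℕ) (b : Sym2 W → ℕ), (∀ x, a x ∈ LV x) ∧
      ∀ x y, G.Adj x y → b s(x, y) ∈ LE s(x, y) ∧ a x ≠ a y ∧ b s(x, y) ≠ a x ∧
        ∀ z, G.Adj x z → z ≠ y → b s(x, y) ≠ b s(x, z) := by
  classical
  obtain ⟨c, hc1, hc2⟩ := greedy_list G D hD LV (fun v => by
    have := hV v
    omega)
  obtain ⟨r, hr1, hr2⟩ := reps G
  have hadj : ∀ x y, G.Adj x y ↔ G.Adj (r x) (r y) := by
    intro x y
    rw [hr1 x y, G.adj_comm, hr1 y (r x), G.adj_comm]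
  obtain ⟨g, hg1, hg2⟩ := twin_list G D hD hcl r hr1 hr2
    (fun u v => LE s(u, v) \ {c u, c v})
    (fun u v => by rw [Sym2.eq_swap, pair_comm]) (fun u v huv => by
      have h1 := hE u v huv
      have h2 := le_card_sdiff {c u, c v} (LE s(u, v))
      have h3 : ({c u, c v} : Finset ℕ).card ≤ 2 := card_le_two
      omega)
  refine ⟨fun x => c (r x), g, fun x => ?_, fun x y hxy => ?_⟩
  · rw [← hVi x (r x) (hr1 x)]
    exact hc1 (r x)
  · have h1 := hg1 x y hxy
    simp only [mem_sdiff, mem_insert, mem_singleton, not_or] at h1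
    refine ⟨?_, hc2 _ _ ((hadj x y).mp hxy), h1.2.1, fun z hz hzy => hg2 x y z hxy hz hzy.symm⟩
    rw [← hEi x y (r x) (r y) hxy (hr1 x) (hr1 y)]
    exact h1.1

end Pool.Agent.N347.TC
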