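import Pool.Agent.N347.TC.Ori
import Pool.Agent.N323.TC_TJOIN
import Pool.Agent.N514.TC_SEL
import Pool.Agent.N853.TC_OVF
import Pool.Agent.N134.TC_ARITH

set_option autoImplicit false

/-!
# Project TC: list edge colourings and total colourings of blow-ups
-/

namespace Pool.Agent.N347.TC

open Finset

/-- A regular component with an odd number of vertices has even degree. -/
theorem even_of_odd {V : Type} [Fintype V] (H : SimpleGraph V) (d : ℕ)
    (C : H.ConnectedComponent) (hC : Odd C.supp.ncard)
    (hr : ∀ v ∈ C.supp, (H.neighborSet v).ncard = d) : Even d := by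
  classical
  set S : Finset (V × V) := univ.filter fun p => p.1 ∈ C.supp ∧ H.Adj p.1 p.2 with hS
  have h1 : S.card = C.supp.ncard * d := by
    have h2 : S = (C.supp.toFinset).biUnion fun v => (H.neighborSet v).toFinset.image fun u => (v, u) := by
      ext ⟨u, v⟩
      simp [hS, and_comm]
    rw [h2, card_biUnion]
    · rw [Set.ncard_eq_toFinset_card', ← smul_eq_mul, ← sum_const]
      refine sum_congr rfl fun v hv => ?_
      rw [card_image_of_injective _ (fun a b h => congrArg Prod.snd h), ← hr v (by simpa using hv),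
        Set.ncard_eq_toFinset_card']
    · intro x _ y _ hxy
      rw [Function.onFun, disjoint_left]
      intro p hp hp'
      obtain ⟨a, _, rfl⟩ := mem_image.mp hp
      obtain ⟨b, _, hb⟩ := mem_image.mp hp'
      exact hxy (congrArg Prod.fst hb).symm
  have h3 : ((S.card : ℕ) : ZMod 2) = 0 := by
    have h4 : ∑ _p ∈ S, (1 : ZMod 2) = 0 := by
      refine Finset.sum_involution (fun p _ => (p.2, p.1)) ?_ ?_ ?_ ?_
      · intro p _
        decide
      · intro p hp _ h
        have h5 : H.Adj p.1 p.2 := ((mem_filter.mp hp).2).2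
        exact h5.ne (congrArg Prod.snd h)
      · intro p hp
        have h5 := (mem_filter.mp hp).2
        refine mem_filter.mpr ⟨mem_univ _, ?_, h5.2.symm⟩
        have h6 := h5.1
        rw [SimpleGraph.ConnectedComponent.mem_supp_iff] at h6 ⊢
        rw [← h6]
        exact (SimpleGraph.ConnectedComponent.eq.mpr h5.2.reachable).symm
      · intro p _
        rfl
    simpa using h4
  have h4 : Even S.card := (ZMod.natCast_eq_zero_iff_even).mp h3
  rw [h1] at h4
  rcases Nat.even_mul.mp h4 with h5 | h5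
  · exact absurd h5 (Nat.not_even_iff_odd.mpr hC)
  · exact h5

/-- List edge colourings of blow-ups. -/
theorem main {V : Type} [Fintype V] [DecidableEq V] (H : SimpleGraph V) (d m D : ℕ)
    (hH : ∀ v, (H.neighborSet v).ncard ≤ d) (hD : d * m ≤ D) (hm : Even m ∨ d + 1 ≤ m)
    (hex : Odd m → ∀ C : H.ConnectedComponent, Odd C.supp.ncard →
      (∀ v ∈ C.supp, (H.neighborSet v).ncard = d) → d * m + 1 ≤ D)
    (L : V → V → Finset ℕ) (hLs : ∀ u v, L u v = L v u)
    (hL : ∀ u v, H.Adj u v → D ≤ (L u v).card) :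
    ∃ g : V × Fin m → V × Fin m → ℕ,
      (∀ x y, H.Adj x.1 y.1 → g x y = g y x ∧ g x y ∈ L x.1 y.1) ∧
      ∀ x y z, H.Adj x.1 y.1 → H.Adj x.1 z.1 → y ≠ z → g x y ≠ g x z := by
  classical
  rcases Nat.even_or_odd m with he | ho
  · obtain ⟨k, rfl⟩ := he
    have hdeg : ∀ v, (univ.filter fun u => H.Adj v u).card ≤ d := by
      intro v
      refine le_trans (le_of_eq ?_) (hH v)
      rw [Set.ncard_eq_toFinset_card']
      congr 1
      ext u
      simp
    have hsum : ∀ v, ∑ u, (if H.Adj v u then 2 * k * k else 0) ≤ D * k := by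
      intro v
      rw [← sum_filter, sum_const, smul_eq_mul]
      calc (univ.filter fun u => H.Adj v u).card * (2 * k * k) ≤ d * (2 * k * k) :=
            Nat.mul_le_mul_right _ (hdeg v)
        _ = d * (k + k) * k := by ring
        _ ≤ D * k := Nat.mul_le_mul_right _ hD
    refine ori H (k + k) D (fun u v => if H.Adj u v then 2 * k * k else 0) (fun _ => k)
      (fun _ => by omega) (fun u v h => if_neg h) (fun u v h => ?_) hsum (fun v => ?_) L hLs hL
    · rw [if_pos h, if_pos h.symm]
      ring
    · have h1 : k + k - k = k := by omega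
      rw [h1]
      refine le_trans (le_of_eq ?_) (hsum v)
      refine sum_congr rfl fun u _ => ?_
      simp only [H.adj_comm u v]
  · have hdm : d + 1 ≤ m := by
      rcases hm with h | h
      · exact absurd h (Nat.not_even_iff_odd.mpr ho)
      · exact h
    obtain ⟨T, Z, h1, h2, h3, h4, h5⟩ := Pool.Agent.N514.TCSEL.sel H d hH
    obtain ⟨J, hJ, hJT⟩ := Pool.Agent.N323.TCTJOIN.tjoin H T h1
    have h6 : ∀ z ∈ Z, Even d ∧ d * m + 1 ≤ D ∧
        ∀ v, H.Reachable z v → (H.neighborSet v).ncard = d := by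
      intro z hz
      obtain ⟨h7, h8⟩ := h5 z hz
      refine ⟨even_of_odd H d _ h7 h8, hex ho _ h7 h8, fun v hv => h8 v ?_⟩
      rw [SimpleGraph.ConnectedComponent.mem_supp_iff]
      exact (SimpleGraph.ConnectedComponent.eq.mpr hv).symm
    obtain ⟨a, s, hs, ha0, ha1, ha2, ha3⟩ := Pool.Agent.N134.TCARITH.arith H J d m D ho hdm hD hH T Z h2 h3 h4 h6 hJ hJT
    exact ori H m D a s hs ha0 ha1 ha2 ha3 L hLs hL

/-- The list edge-colouring conjecture for blow-ups and lists that are constant on the bundles. -/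
theorem lecc {V : Type} [Fintype V] [DecidableEq V] (H : SimpleGraph V) (m k : ℕ)
    (hm : Even m ∨ ∀ v, (H.neighborSet v).ncard < m) (g0 : V × Fin m → V × Fin m → ℕ)
    (hs : ∀ x y, H.Adj x.1 y.1 → g0 x y = g0 y x ∧ g0 x y < k)
    (hp : ∀ x y z, H.Adj x.1 y.1 → H.Adj x.1 z.1 → y ≠ z → g0 x y ≠ g0 x z)
    (L : V → V → Finset ℕ) (hLs : ∀ u v, L u v = L v u)
    (hL : ∀ u v, H.Adj u v → k ≤ (L u v).card) :
    ∃ g : V × Fin m → V × Fin m → ℕ,
      (∀ x y, H.Adj x.1 y.1 → g x y = g y x ∧ g x y ∈ L x.1 y.1) ∧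
      ∀ x y z, H.Adj x.1 y.1 → H.Adj x.1 z.1 → y ≠ z → g x y ≠ g x z := by
  classical
  by_cases hE : ∃ u v, H.Adj u v
  · obtain ⟨u0, v0, huv⟩ := hE
    have : Nonempty V := ⟨u0⟩
    -- a vertex of maximum degree
    obtain ⟨w, -, hw⟩ := exists_max_image (univ : Finset V) (fun v => (H.neighborSet v).ncard)
      ⟨u0, mem_univ _⟩
    set d := (H.neighborSet w).ncard with hd
    have hdeg : ∀ v, (H.neighborSet v).ncard ≤ d := fun v => hw v (mem_univ _)
    have hd1 : 1 ≤ d := by
      have h1 := hdeg u0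
      have h2 : 0 < (H.neighborSet u0).ncard := by
        rw [Set.ncard_pos]
        exact ⟨v0, huv⟩
      omega
    rcases Nat.eq_zero_or_pos m with rfl | hm0
    · exact ⟨fun _ _ => 0, fun x => x.2.elim0, fun x => x.2.elim0⟩
    have hDk : d * m ≤ k := by
      have h1 : (((H.neighborSet w).toFinset ×ˢ (univ : Finset (Fin m))).image
          fun y => g0 (w, ⟨0, hm0⟩) y) ⊆ range k := by
        intro c hc
        obtain ⟨y, hy, rfl⟩ := mem_image.mp hc
        have h2 : H.Adj w y.1 := by simpa using (mem_product.mp hy).1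
        exact mem_range.mpr (hs (w, ⟨0, hm0⟩) y h2).2
      have h2 := card_le_card h1
      rw [card_range, card_image_of_injOn, card_product, card_univ, Fintype.card_fin,
        ← Set.ncard_eq_toFinset_card'] at h2
      · exact h2
      · intro y hy z hz hyz
        have h3 : H.Adj w y.1 := by simpa using (mem_product.mp (mem_coe.mp hy)).1
        have h4 : H.Adj w z.1 := by simpa using (mem_product.mp (mem_coe.mp hz)).1
        by_contra hne
        exact hp (w, ⟨0, hm0⟩) y z h3 h4 hne hyz
    refine main H d m k hdeg hDk ?_ ?_ L hLs hL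
    · rcases hm with h | h
      · exact Or.inl h
      · exact Or.inr (h w)
    · intro ho C hC hr
      rcases Pool.Agent.N853.TCOVF.ovf H d m ho C hC hr k g0 hs hp with h | h
      · omega
      · exact h
  · push Not at hE
    exact ⟨fun _ _ => 0, fun x y h => absurd h (hE _ _), fun x y z h => absurd h (hE _ _)⟩

end Pool.Agent.N347.TC
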