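import Pool.Agent.TH559.LE.Bip
import Pool.Agent.N645.TB_KON
import Pool.Agent.N945.TB_SPLIT

set_option autoImplicit false

/-!
# Project TC: list edge colourings of blow-ups from orientations
-/

namespace Pool.Agent.N347.TC

open Finset

/-- Galvin's theorem for bipartite multigraphs. -/
theorem galvin_multi {U A B : Type} [Fintype U] [DecidableEq A] [DecidableEq B] (a : U → A)
    (b : U → B) (D : ℕ) (ha : ∀ x, (univ.filter fun u => a u = x).card ≤ D)
    (hb : ∀ y, (univ.filter fun u => b u = y).card ≤ D) (L : U → Finset ℕ)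
    (hL : ∀ u, D ≤ (L u).card) :
    ∃ φ : U → ℕ, ∀ u, φ u ∈ L u ∧ ∀ v, v ≠ u → φ v = φ u → a v ≠ a u ∧ b v ≠ b u := by
  classical
  obtain ⟨c, hc1, hc2⟩ := Pool.Agent.N645.TBKON.kon a b D ha hb
  obtain ⟨φ, hφ⟩ := Pool.Agent.TH559.LE.galvin (α := U) (V := A ⊕ B) (C := ℕ)
    (fun u => Sum.inl (a u)) (fun u => Sum.inr (b u)) (fun u => (c u : ℕ)) (fun u => (c u : ℕ))
    (fun e f h1 h2 => by
      by_contra hne
      exact hc1 e f hne (Sum.inl.inj h1) (Fin.ext h2))
    (fun e f h1 h2 => by
      by_contra hne
      exact hc2 e f hne (Sum.inr.inj h1) (Fin.ext h2))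
    _ univ L rfl (by
      intro e _
      have h1 : (univ.filter fun f => (Sum.inl (a f) : A ⊕ B) = Sum.inl (a e) ∧
          (c e : ℕ) < (c f : ℕ)).card ≤ D - 1 - (c e : ℕ) := by
        have : (univ.filter fun f => (Sum.inl (a f) : A ⊕ B) = Sum.inl (a e) ∧
            (c e : ℕ) < (c f : ℕ)).card ≤ (Finset.Ioo (c e : ℕ) D).card := by
          refine card_le_card_of_injOn (fun f => (c f : ℕ)) ?_ ?_
          · intro f hf
            simp only [coe_filter, mem_univ, true_and, Set.mem_ofPred_eq] at hf
            simp only [coe_Ioo, Set.mem_Ioo]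
            exact ⟨hf.2, (c f).2⟩
          · intro f hf f' hf' h
            simp only [coe_filter, mem_univ, true_and, Set.mem_ofPred_eq] at hf hf'
            by_contra hne
            exact hc1 f f' hne ((Sum.inl.inj hf.1).trans (Sum.inl.inj hf'.1).symm) (Fin.ext h)
        rw [Nat.card_Ioo] at this
        omega
      have h2 : (univ.filter fun f => (Sum.inr (b f) : A ⊕ B) = Sum.inr (b e) ∧
          (c f : ℕ) < (c e : ℕ)).card ≤ (c e : ℕ) := by
        have : (univ.filter fun f => (Sum.inr (b f) : A ⊕ B) = Sum.inr (b e) ∧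
            (c f : ℕ) < (c e : ℕ)).card ≤ (range (c e : ℕ)).card := by
          refine card_le_card_of_injOn (fun f => (c f : ℕ)) ?_ ?_
          · intro f hf
            simp only [coe_filter, mem_univ, true_and, Set.mem_ofPred_eq] at hf
            simp only [coe_range, Set.mem_Iio]
            exact hf.2
          · intro f hf f' hf' h
            simp only [coe_filter, mem_univ, true_and, Set.mem_ofPred_eq] at hf hf'
            by_contra hne
            exact hc2 f f' hne ((Sum.inr.inj hf.1).trans (Sum.inr.inj hf'.1).symm) (Fin.ext h)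
        rw [card_range] at this
        exact this
      have h3 := (c e).2
      have h4 := hL e
      omega)
  refine ⟨φ, fun u => ⟨(hφ u (mem_univ _)).1, fun v hv h => ?_⟩⟩
  obtain ⟨h1, h2⟩ := (hφ u (mem_univ _)).2 v (mem_univ _) hv h
  exact ⟨fun h3 => h1 (by rw [h3]), fun h3 => h2 (by rw [h3])⟩

/-- Spreading the elements of every fibre over several copies. -/
theorem spread {U A : Type} [Fintype U] [DecidableEq A] (f : U → A) (D : ℕ) (s : A → ℕ)
    (h : ∀ x, (univ.filter fun u => f u = x).card ≤ D * s x) :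
    ∃ i : U → ℕ, (∀ u, i u < s (f u)) ∧
      ∀ y : A × ℕ, (univ.filter fun u => (f u, i u) = y).card ≤ D := by
  classical
  have h1 : ∀ x, ∃ e : U → ℕ, (∀ u, f u = x → e u < D * s x) ∧
      ∀ u v, f u = x → f v = x → e u = e v → u = v := by
    intro x
    refine ⟨fun u => if hu : u ∈ univ.filter (fun u => f u = x) then
      ((univ.filter fun u => f u = x).equivFin ⟨u, hu⟩ : ℕ) else 0, fun u hu => ?_,
      fun u v hu hv huv => ?_⟩
    · have hu' : u ∈ univ.filter (fun u => f u = x) := by simpa using hu
      beta_reduce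
      rw [dif_pos hu']
      exact lt_of_lt_of_le (Fin.is_lt _) (h x)
    · have hu' : u ∈ univ.filter (fun u => f u = x) := by simpa using hu
      have hv' : v ∈ univ.filter (fun u => f u = x) := by simpa using hv
      beta_reduce at huv
      rw [dif_pos hu', dif_pos hv'] at huv
      exact congrArg Subtype.val (((univ.filter fun u => f u = x).equivFin).injective (Fin.ext huv))
  choose e he1 he2 using h1
  rcases Nat.eq_zero_or_pos D with rfl | hD
  · have hU : IsEmpty U := ⟨fun u => by
      have := he1 (f u) u rfl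
      omega⟩
    exact ⟨fun _ => 0, fun u => (hU.false u).elim, fun y => by simp⟩
  refine ⟨fun u => e (f u) u / D, fun u => ?_, fun y => ?_⟩
  · exact Nat.div_lt_of_lt_mul (he1 (f u) u rfl)
  · have : (univ.filter fun u => (f u, e (f u) u / D) = y).card ≤
        (Finset.Ico (y.2 * D) (y.2 * D + D)).card := by
      refine card_le_card_of_injOn (fun u => e (f u) u) ?_ ?_
      · intro u hu
        simp only [coe_filter, mem_univ, true_and, Set.mem_ofPred_eq] at hu
        simp only [coe_Ico, Set.mem_Ico]
        have h2 : e (f u) u / D = y.2 := congrArg Prod.snd hu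
        have h3 := Nat.div_add_mod (e (f u) u) D
        have h4 := Nat.mod_lt (e (f u) u) hD
        rw [h2, mul_comm] at h3
        omega
      · intro u hu v hv huv
        simp only [coe_filter, mem_univ, true_and, Set.mem_ofPred_eq] at hu hv
        have h2 : f u = f v := (congrArg Prod.fst hu).trans (congrArg Prod.fst hv).symm
        refine he2 (f v) u v h2 rfl ?_
        have h3 : e (f u) u = e (f v) v := huv
        rw [h2] at h3
        exact h3
    have h5 : y.2 * D + D - y.2 * D = D := by omega
    rw [Nat.card_Ico, h5] at this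
    exact this

/-- The arcs of the multidigraph with `a u v` arcs from `u` to `v`. -/
abbrev Arc {V : Type} (a : V → V → ℕ) : Type := Σ p : V × V, Fin (a p.1 p.2)

theorem card_arc {V : Type} [Fintype V] (a : V → V → ℕ) (P : V × V → Prop) [DecidablePred P] :
    (univ.filter fun t : Arc a => P t.1).card = ∑ p : V × V, if P p then a p.1 p.2 else 0 := by
  have h4 : (univ.filter fun t : Arc a => P t.1) =
      (univ.filter fun p : V × V => P p).sigma fun p => (univ : Finset (Fin (a p.1 p.2))) := by
    ext t
    simp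
  rw [h4, card_sigma, sum_filter]
  refine sum_congr rfl fun p _ => ?_
  rw [card_univ, Fintype.card_fin]

/-- List edge colourings of blow-ups from orientations of `m² H`. -/
theorem ori {V : Type} [Fintype V] [DecidableEq V] (H : SimpleGraph V) (m D : ℕ)
    (a : V → V → ℕ) (s : V → ℕ) (hs : ∀ v, s v ≤ m) (h0 : ∀ u v, ¬ H.Adj u v → a u v = 0)
    (h1 : ∀ u v, H.Adj u v → a u v + a v u = m * m) (h2 : ∀ v, ∑ u, a v u ≤ D * s v)
    (h3 : ∀ v, ∑ u, a u v ≤ D * (m - s v)) (L : V → V → Finset ℕ)
    (hLs : ∀ u v, L u v = L v u) (hL : ∀ u v, H.Adj u v → D ≤ (L u v).card) :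
    ∃ g : V × Fin m → V × Fin m → ℕ,
      (∀ x y, H.Adj x.1 y.1 → g x y = g y x ∧ g x y ∈ L x.1 y.1) ∧
      ∀ x y z, H.Adj x.1 y.1 → H.Adj x.1 z.1 → y ≠ z → g x y ≠ g x z := by
  classical
  have hadj : ∀ t : Arc a, H.Adj t.1.1 t.1.2 := by
    intro t
    by_contra h
    have h4 : (t.2 : ℕ) < a t.1.1 t.1.2 := t.2.2
    have h5 := h0 _ _ h
    omega
  have hout : ∀ v, (univ.filter fun t : Arc a => t.1.1 = v).card ≤ D * s v := by
    intro v
    rw [card_arc a (fun p => p.1 = v), Fintype.sum_prod_type]
    refine le_trans (le_of_eq ?_) (h2 v)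
    rw [Finset.sum_eq_single v]
    · simp
    · intro x _ hx
      simp [hx]
    · simp
  have hin : ∀ v, (univ.filter fun t : Arc a => t.1.2 = v).card ≤ D * (m - s v) := by
    intro v
    rw [card_arc a (fun p => p.2 = v), Fintype.sum_prod_type]
    refine le_trans (le_of_eq ?_) (h3 v)
    refine sum_congr rfl fun u _ => ?_
    simp
  obtain ⟨i, hi1, hi2⟩ := spread (fun t : Arc a => t.1.1) D s hout
  obtain ⟨j, hj1, hj2⟩ := spread (fun t : Arc a => t.1.2) D (fun v => m - s v) hin
  obtain ⟨φ, hφ⟩ := galvin_multi (fun t : Arc a => (t.1.1, i t)) (fun t : Arc a => (t.1.2, j t)) D hi2 hj2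
    (fun t => L t.1.1 t.1.2) (fun t => hL _ _ (hadj t))
  obtain ⟨N, hN⟩ : ∃ N, ∀ t, φ t < N := by
    refine ⟨(univ.image φ).sup id + 1, fun t => ?_⟩
    have : φ t ≤ (univ.image φ).sup id :=
      Finset.le_sup (f := id) (mem_image_of_mem φ (mem_univ t))
    omega
  set A : ℕ → V → V → ℕ := fun l u v => (univ.filter fun t : Arc a => t.1 = (u, v) ∧ φ t = l).card
    with hA
  have hAs : ∀ u v, ∑ l ∈ range N, A l u v = a u v := by
    intro u v
    have h4 : (univ.filter fun t : Arc a => t.1 = (u, v)).card = a u v := by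
      rw [card_arc a (fun p => p = (u, v)), Finset.sum_eq_single (u, v)]
      · simp
      · intro x _ hx
        simp [hx]
      · simp
    rw [← h4, card_eq_sum_card_fiberwise (f := φ) (t := range N)
      (fun t _ => by simpa using hN t)]
    refine sum_congr rfl fun l _ => ?_
    simp only [hA, filter_filter]
  have hAo : ∀ l u, ∑ v, A l u v ≤ s u := by
    intro l u
    have h4 : ∑ v, A l u v = (univ.filter fun t : Arc a => t.1.1 = u ∧ φ t = l).card := by
      rw [card_eq_sum_card_fiberwise (f := fun t : Arc a => t.1.2) (t := univ) (fun t _ => by simp)]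
      refine sum_congr rfl fun v _ => ?_
      simp only [hA, filter_filter]
      congr 1
      ext t
      simp only [mem_filter, mem_univ, true_and]
      constructor
      · rintro ⟨h5, h6⟩
        exact ⟨⟨by rw [h5], h6⟩, by rw [h5]⟩
      · rintro ⟨⟨h5, h6⟩, h7⟩
        exact ⟨Prod.ext h5 h7, h6⟩
    rw [h4]
    refine le_trans (card_le_card_of_injOn i (t := range (s u)) ?_ ?_) (by simp)
    · intro t ht
      simp only [coe_filter, mem_univ, true_and, Set.mem_ofPred_eq] at ht
      have := hi1 t
      rw [ht.1] at this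
      simpa using this
    · intro t ht t' ht' h5
      simp only [coe_filter, mem_univ, true_and, Set.mem_ofPred_eq] at ht ht'
      by_contra hne
      refine ((hφ t').2 t hne (ht.2.trans ht'.2.symm)).1 ?_
      exact Prod.ext (ht.1.trans ht'.1.symm) h5
  have hAi : ∀ l u, ∑ v, A l v u ≤ m - s u := by
    intro l u
    have h4 : ∑ v, A l v u = (univ.filter fun t : Arc a => t.1.2 = u ∧ φ t = l).card := by
      rw [card_eq_sum_card_fiberwise (f := fun t : Arc a => t.1.1) (t := univ) (fun t _ => by simp)]
      refine sum_congr rfl fun v _ => ?_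
      simp only [hA, filter_filter]
      congr 1
      ext t
      simp only [mem_filter, mem_univ, true_and]
      constructor
      · rintro ⟨h5, h6⟩
        exact ⟨⟨by rw [h5], h6⟩, by rw [h5]⟩
      · rintro ⟨⟨h5, h6⟩, h7⟩
        exact ⟨Prod.ext h7 h5, h6⟩
    rw [h4]
    refine le_trans (card_le_card_of_injOn j (t := range (m - s u)) ?_ ?_) (by simp)
    · intro t ht
      simp only [coe_filter, mem_univ, true_and, Set.mem_ofPred_eq] at ht
      have := hj1 t
      rw [ht.1] at this
      simpa using this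
    · intro t ht t' ht' h5
      simp only [coe_filter, mem_univ, true_and, Set.mem_ofPred_eq] at ht ht'
      by_contra hne
      refine ((hφ t').2 t hne (ht.2.trans ht'.2.symm)).2 ?_
      exact Prod.ext (ht.1.trans ht'.1.symm) h5
  have hA0 : ∀ l u v, ¬ H.Adj u v → A l u v = 0 := by
    intro l u v h
    simp only [hA, card_eq_zero, filter_eq_empty_iff]
    rintro t - ⟨h4, -⟩
    have := hadj t
    rw [h4] at this
    exact h this
  obtain ⟨g, hg1, hg2⟩ := Pool.Agent.N945.TBSPLIT.split H m N (fun l u v => A l u v + A l v u)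
    (fun l u v => add_comm _ _)
    (fun l u v h => by
      simp only [hA0 l u v h, hA0 l v u (fun h' => h h'.symm)])
    (fun u v h => by rw [sum_add_distrib, hAs, hAs, h1 u v h])
    (fun l u _ => by
      rw [sum_add_distrib]
      have := hAo l u
      have := hAi l u
      have := hs u
      omega)
  refine ⟨g, fun x y hxy => ⟨(hg1 x y hxy).1, ?_⟩, hg2⟩
  have h4 := (hg1 x y hxy).2.2
  have h5 : 0 < A (g x y) x.1 y.1 ∨ 0 < A (g x y) y.1 x.1 := by
    omega
  rcases h5 with h5 | h5
  · obtain ⟨t, ht⟩ := card_pos.mp h5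
    simp only [mem_filter, mem_univ, true_and] at ht
    have h6 := (hφ t).1
    rw [ht.1, ht.2] at h6
    exact h6
  · obtain ⟨t, ht⟩ := card_pos.mp h5
    simp only [mem_filter, mem_univ, true_and] at ht
    have h6 := (hφ t).1
    rw [ht.1, ht.2] at h6
    rw [hLs]
    exact h6

end Pool.Agent.N347.TC
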