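import Pool.Agent.N347.TC.Ori
import Pool.Agent.N7.TC_SPLIT2

set_option autoImplicit false

/-!
# Project TC: list edge colourings of blow-ups with parts of different sizes
-/

namespace Pool.Agent.N347.TC

open Finset

/-- List edge colourings of blow-ups with part sizes `n v` from orientations. -/
theorem ori2 {V : Type} [Fintype V] [DecidableEq V] (H : SimpleGraph V) (n : V → ℕ) (D : ℕ)
    (a : V → V → ℕ) (s : V → ℕ) (hs : ∀ v, s v ≤ n v) (h0 : ∀ u v, ¬ H.Adj u v → a u v = 0)
    (h1 : ∀ u v, H.Adj u v → a u v + a v u = n u * n v) (h2 : ∀ v, ∑ u, a v u ≤ D * s v)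
    (h3 : ∀ v, ∑ u, a u v ≤ D * (n v - s v)) (L : V → V → Finset ℕ)
    (hLs : ∀ u v, L u v = L v u) (hL : ∀ u v, H.Adj u v → D ≤ (L u v).card) :
    ∃ g : V × ℕ → V × ℕ → ℕ,
      (∀ x y, x.2 < n x.1 → y.2 < n y.1 → H.Adj x.1 y.1 → g x y = g y x ∧ g x y ∈ L x.1 y.1) ∧
      ∀ x y z, x.2 < n x.1 → y.2 < n y.1 → z.2 < n z.1 → H.Adj x.1 y.1 → H.Adj x.1 z.1 →
        y ≠ z → g x y ≠ g x z := by
  classical
  have hadj : ∀ t : Arc a, H.Adj t.1.1 t.1.2 := by
    intro t
    by_contra h
    have h4 : (t.2 : ℕ) < a t.1.1 t.1.2 := t.2.2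
    have h5 := h0 _ _ h
    omega
  have hout : ∀ v, (univ.filter fun t : Arc a => t.1.1 = v).card ≤ D * s v := by
    intro v
    rw [card_arc a (fun p => p.1 = v), Fintype.sum_prod_type]
    refine le_trans (le_of_eq ?_) (h2 v)
    rw [Finset.sum_eq_single v]
    · simp
    · intro x _ hx
      simp [hx]
    · simp
  have hin : ∀ v, (univ.filter fun t : Arc a => t.1.2 = v).card ≤ D * (n v - s v) := by
    intro v
    rw [card_arc a (fun p => p.2 = v), Fintype.sum_prod_type]
    refine le_trans (le_of_eq ?_) (h3 v)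
    refine sum_congr rfl fun u _ => ?_
    simp
  obtain ⟨i, hi1, hi2⟩ := spread (fun t : Arc a => t.1.1) D s hout
  obtain ⟨j, hj1, hj2⟩ := spread (fun t : Arc a => t.1.2) D (fun v => n v - s v) hin
  obtain ⟨φ, hφ⟩ := galvin_multi (fun t : Arc a => (t.1.1, i t)) (fun t : Arc a => (t.1.2, j t)) D hi2 hj2
    (fun t => L t.1.1 t.1.2) (fun t => hL _ _ (hadj t))
  obtain ⟨N, hN⟩ : ∃ N, ∀ t, φ t < N := by
    refine ⟨(univ.image φ).sup id + 1, fun t => ?_⟩
    have : φ t ≤ (univ.image φ).sup id :=
      Finset.le_sup (f := id) (mem_image_of_mem φ (mem_univ t))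
    omega
  set A : ℕ → V → V → ℕ := fun l u v => (univ.filter fun t : Arc a => t.1 = (u, v) ∧ φ t = l).card
    with hA
  have hAs : ∀ u v, ∑ l ∈ range N, A l u v = a u v := by
    intro u v
    have h4 : (univ.filter fun t : Arc a => t.1 = (u, v)).card = a u v := by
      rw [card_arc a (fun p => p = (u, v)), Finset.sum_eq_single (u, v)]
      · simp
      · intro x _ hx
        simp [hx]
      · simp
    rw [← h4, card_eq_sum_card_fiberwise (f := φ) (t := range N)
      (fun t _ => by simpa using hN t)]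
    refine sum_congr rfl fun l _ => ?_
    simp only [hA, filter_filter]
  have hAo : ∀ l u, ∑ v, A l u v ≤ s u := by
    intro l u
    have h4 : ∑ v, A l u v = (univ.filter fun t : Arc a => t.1.1 = u ∧ φ t = l).card := by
      rw [card_eq_sum_card_fiberwise (f := fun t : Arc a => t.1.2) (t := univ) (fun t _ => by simp)]
      refine sum_congr rfl fun v _ => ?_
      simp only [hA, filter_filter]
      congr 1
      ext t
      simp only [mem_filter, mem_univ, true_and]
      constructor
      · rintro ⟨h5, h6⟩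
        exact ⟨⟨by rw [h5], h6⟩, by rw [h5]⟩
      · rintro ⟨⟨h5, h6⟩, h7⟩
        exact ⟨Prod.ext h5 h7, h6⟩
    rw [h4]
    refine le_trans (card_le_card_of_injOn i (t := range (s u)) ?_ ?_) (by simp)
    · intro t ht
      simp only [coe_filter, mem_univ, true_and, Set.mem_ofPred_eq] at ht
      have := hi1 t
      rw [ht.1] at this
      simpa using this
    · intro t ht t' ht' h5
      simp only [coe_filter, mem_univ, true_and, Set.mem_ofPred_eq] at ht ht'
      by_contra hne
      refine ((hφ t').2 t hne (ht.2.trans ht'.2.symm)).1 ?_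
      exact Prod.ext (ht.1.trans ht'.1.symm) h5
  have hAi : ∀ l u, ∑ v, A l v u ≤ n u - s u := by
    intro l u
    have h4 : ∑ v, A l v u = (univ.filter fun t : Arc a => t.1.2 = u ∧ φ t = l).card := by
      rw [card_eq_sum_card_fiberwise (f := fun t : Arc a => t.1.1) (t := univ) (fun t _ => by simp)]
      refine sum_congr rfl fun v _ => ?_
      simp only [hA, filter_filter]
      congr 1
      ext t
      simp only [mem_filter, mem_univ, true_and]
      constructor
      · rintro ⟨h5, h6⟩
        exact ⟨⟨by rw [h5], h6⟩, by rw [h5]⟩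
      · rintro ⟨⟨h5, h6⟩, h7⟩
        exact ⟨Prod.ext h7 h5, h6⟩
    rw [h4]
    refine le_trans (card_le_card_of_injOn j (t := range (n u - s u)) ?_ ?_) (by simp)
    · intro t ht
      simp only [coe_filter, mem_univ, true_and, Set.mem_ofPred_eq] at ht
      have := hj1 t
      rw [ht.1] at this
      simpa using this
    · intro t ht t' ht' h5
      simp only [coe_filter, mem_univ, true_and, Set.mem_ofPred_eq] at ht ht'
      by_contra hne
      refine ((hφ t').2 t hne (ht.2.trans ht'.2.symm)).2 ?_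
      exact Prod.ext (ht.1.trans ht'.1.symm) h5
  have hA0 : ∀ l u v, ¬ H.Adj u v → A l u v = 0 := by
    intro l u v h
    simp only [hA, card_eq_zero, filter_eq_empty_iff]
    rintro t - ⟨h4, -⟩
    have := hadj t
    rw [h4] at this
    exact h this
  obtain ⟨g, hg1, hg2⟩ := Pool.Agent.N7.TCSPLIT2.split2 H n N (fun l u v => A l u v + A l v u)
    (fun l u v => add_comm _ _)
    (fun l u v h => by
      simp only [hA0 l u v h, hA0 l v u (fun h' => h h'.symm)])
    (fun u v h => by rw [sum_add_distrib, hAs, hAs, h1 u v h])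
    (fun l u _ => by
      rw [sum_add_distrib]
      have := hAo l u
      have := hAi l u
      have := hs u
      omega)
  refine ⟨g, fun x y hx hy hxy => ⟨(hg1 x y hx hy hxy).1, ?_⟩, hg2⟩
  have h4 := (hg1 x y hx hy hxy).2.2
  have h5 : 0 < A (g x y) x.1 y.1 ∨ 0 < A (g x y) y.1 x.1 := by
    omega
  rcases h5 with h5 | h5
  · obtain ⟨t, ht⟩ := card_pos.mp h5
    simp only [mem_filter, mem_univ, true_and] at ht
    have h6 := (hφ t).1
    rw [ht.1, ht.2] at h6
    exact h6
  · obtain ⟨t, ht⟩ := card_pos.mp h5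
    simp only [mem_filter, mem_univ, true_and] at ht
    have h6 := (hφ t).1
    rw [ht.1, ht.2] at h6
    rw [hLs]
    exact h6

end Pool.Agent.N347.TC
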