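import Pool.Agent.N347.TC.Main
import Pool.Agent.N347.TB.Main

set_option autoImplicit false

/-!
# Project TC: total labellings of graphs with a homomorphism with small fibres
-/

namespace Pool.Agent.N347.TC

open Finset

/-- The labels at distance less than `p` from `a`. -/
def win (p a : ℕ) : Finset ℕ := Finset.Icc (a + 1 - p) (a + p - 1)

theorem win_card (p a : ℕ) (hp : 1 ≤ p) : (win p a).card ≤ 2 * p - 1 := by
  rw [win, Nat.card_Icc]
  omega

theorem not_mem_win (p a l : ℕ) (hp : 1 ≤ p) (h : l ∉ win p a) :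
    (p : ℤ) ≤ |(a : ℤ) - (l : ℤ)| := by
  rw [win, Finset.mem_Icc, not_and_or, not_le, not_le] at h
  rcases h with h | h
  · rw [abs_of_nonneg] <;> omega
  · rw [abs_of_nonpos] <;> omega

/-- An injection of the fibres into `Fin m`. -/
theorem index {V W : Type} [Finite W] (m : ℕ) (f : W → V) (hf : ∀ v, (f ⁻¹' {v}).ncard ≤ m) :
    ∃ e : W → Fin m, ∀ x y, f x = f y → e x = e y → x = y := by
  classical
  have := Fintype.ofFinite W
  have hpos : ∀ x : W, 0 < m := by
    intro x
    have h1 : 0 < (f ⁻¹' {f x}).ncard := by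
      rw [Set.ncard_pos]
      exact ⟨x, rfl⟩
    have := hf (f x)
    omega
  have h1 : ∀ x0 : W, ∃ e : W → Fin m, ∀ x y, f x = f x0 → f y = f x0 → e x = e y → x = y := by
    intro x0
    have h2 : Fintype.card (f ⁻¹' {f x0} : Set W) ≤ Fintype.card (Fin m) := by
      rw [Fintype.card_fin, ← Nat.card_eq_fintype_card, Nat.card_coe_set_eq]
      exact hf _
    obtain ⟨i⟩ := Function.Embedding.nonempty_of_card_le h2
    refine ⟨fun x => if h : f x = f x0 then i ⟨x, h⟩ else ⟨0, hpos x⟩, fun x y hx hy h => ?_⟩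
    simp only [dif_pos hx, dif_pos hy] at h
    exact congrArg Subtype.val (i.injective h)
  choose e he using h1
  -- a representative of every fibre
  have h3 : ∀ x : W, ∃ r : W, f r = f x := fun x => ⟨x, rfl⟩
  let R : V → W → W := fun v x => if h : ∃ r : W, f r = v then h.choose else x
  have hR : ∀ v x, f x = v → f (R v x) = v ∧ ∀ y, R v y = R v x := by
    intro v x hx
    have h : ∃ r : W, f r = v := ⟨x, hx⟩
    refine ⟨?_, fun y => ?_⟩
    · simp only [R, dif_pos h]
      exact h.choose_spec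
    · simp only [R, dif_pos h]
  refine ⟨fun x => e (R (f x) x) x, fun x y h1 h2 => ?_⟩
  obtain ⟨h4, h5⟩ := hR (f x) x rfl
  have h6 : R (f y) y = R (f x) x := by rw [← h1]; exact h5 y
  have h7 : e (R (f x) x) x = e (R (f x) x) y := by
    have h8 : e (R (f x) x) x = e (R (f y) y) y := h2
    rw [h6] at h8
    exact h8
  exact he (R (f x) x) x y h4.symm (h1 ▸ h4.symm) h7

/-- Total labellings of graphs with a homomorphism with small fibres. -/
theorem total {V W : Type} [Finite V] [Finite W] (H : SimpleGraph V) (G : SimpleGraph W)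
    (d m D p : ℕ) (hp : 1 ≤ p) (hH : ∀ v, (H.neighborSet v).ncard ≤ d) (hD : d * m ≤ D)
    (hm : Even m ∨ d < m)
    (hex : Odd m → ∀ C : H.ConnectedComponent, Odd C.supp.ncard →
      (∀ v ∈ C.supp, (H.neighborSet v).ncard = d) → d * m + 1 ≤ D)
    (f : W → V) (hfG : ∀ x y, G.Adj x y → H.Adj (f x) (f y))
    (hf : ∀ v, (f ⁻¹' {v}).ncard ≤ m) :
    ∃ (fV : W → ℕ) (fE : Sym2 W → ℕ),
      (∀ v, fV v < D + 2 * (2 * p - 1)) ∧ (∀ e ∈ G.edgeSet, fE e < D + 2 * (2 * p - 1)) ∧
      (∀ u v, G.Adj u v → fV u ≠ fV v) ∧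
      (∀ u v w, G.Adj u v → G.Adj u w → v ≠ w → fE s(u, v) ≠ fE s(u, w)) ∧
      (∀ u v, G.Adj u v → (p : ℤ) ≤ |(fV u : ℤ) - (fE s(u, v) : ℤ)|) := by
  classical
  have := Fintype.ofFinite V
  have := Fintype.ofFinite W
  rcases Nat.eq_zero_or_pos m with rfl | hm0
  · have he : IsEmpty W := by
      refine ⟨fun x => ?_⟩
      have h1 := hf (f x)
      have h2 : (f ⁻¹' {f x}).ncard = 0 := by omega
      rw [Set.ncard_eq_zero] at h2
      have h3 : x ∈ f ⁻¹' {f x} := rfl
      rw [h2] at h3
      exact h3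
    refine ⟨fun _ => 0, fun _ => 0, fun x => (he.false x).elim, fun e he' => ?_,
      fun x => (he.false x).elim, fun x => (he.false x).elim, fun x => (he.false x).elim⟩
    induction e with
    | h x y => exact (he.false x).elim
  obtain ⟨c⟩ := TB.greedy H d hH
  have hdm : d ≤ d * m := Nat.le_mul_of_pos_right d hm0
  set L : V → V → Finset ℕ := fun u v =>
    range (D + 2 * (2 * p - 1)) \ (win p (c u) ∪ win p (c v)) with hL
  obtain ⟨g, hg1, hg2⟩ := main H d m D hH hD (by
      rcases hm with h | h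
      · exact Or.inl h
      · exact Or.inr h) hex L
    (fun u v => by simp only [hL, union_comm]) (fun u v _ => by
      have h1 := win_card p (c u) hp
      have h2 := win_card p (c v) hp
      have h3 := card_union_le (win p (c u)) (win p (c v))
      have h4 := le_card_sdiff (win p (c u) ∪ win p (c v)) (range (D + 2 * (2 * p - 1)))
      rw [card_range] at h4
      simp only [hL]
      omega)
  obtain ⟨e, he⟩ := index m f hf
  set φ : W → V × Fin m := fun x => (f x, e x) with hφ
  have hφi : Function.Injective φ := by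
    intro x y h
    exact he x y (congrArg Prod.fst h) (congrArg Prod.snd h)
  have hb : ∀ x y, G.Adj x y → g (φ (s(x, y) : Sym2 W).out.1) (φ (s(x, y) : Sym2 W).out.2) =
      g (φ x) (φ y) := by
    intro x y hxy
    have h1 : s((s(x, y) : Sym2 W).out.1, (s(x, y) : Sym2 W).out.2) = s(x, y) := by
      exact Quot.out_eq _
    rcases Sym2.eq_iff.mp h1 with ⟨h2, h3⟩ | ⟨h2, h3⟩
    · rw [h2, h3]
    · rw [h2, h3]
      exact ((hg1 _ _ (hfG x y hxy)).1).symm
  have hmem : ∀ x y, G.Adj x y → g (φ x) (φ y) < D + 2 * (2 * p - 1) ∧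
      g (φ x) (φ y) ∉ win p (c (f x)) := by
    intro x y hxy
    have h1 := (hg1 (φ x) (φ y) (hfG x y hxy)).2
    simp only [hL, mem_sdiff, mem_range, mem_union, not_or] at h1
    exact ⟨h1.1, h1.2.1⟩
  refine ⟨fun x => (c (f x) : ℕ), fun s => g (φ s.out.1) (φ s.out.2), fun x => ?_,
    fun s hs => ?_, fun x y hxy h => ?_, fun x y z hxy hxz hyz h => ?_, fun x y hxy => ?_⟩
  · have := (c (f x)).2
    show ((c (f x) : Fin (d + 1)) : ℕ) < _
    omega
  · induction s with
    | h x y =>
      have hxy : G.Adj x y := hs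
      show g (φ (s(x, y) : Sym2 W).out.1) (φ (s(x, y) : Sym2 W).out.2) < _
      rw [hb x y hxy]
      exact (hmem x y hxy).1
  · exact c.valid (hfG x y hxy) (Fin.ext h)
  · beta_reduce at h
    rw [hb x y hxy, hb x z hxz] at h
    exact hg2 (φ x) (φ y) (φ z) (hfG x y hxy) (hfG x z hxz) (fun h2 => hyz (hφi h2)) h
  · beta_reduce
    rw [hb x y hxy]
    exact not_mem_win p _ _ hp (hmem x y hxy).2

end Pool.Agent.N347.TC
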