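import Pool.Agent.N347.TC.Ori2
import Pool.Agent.N347.TC.Total
import Pool.Agent.N887.TC_BAL

set_option autoImplicit false

/-!
# Project TC: graphs with even classes of twins
-/

namespace Pool.Agent.N347.TC

open Finset

/-- The orientation for parts of different sizes. -/
theorem orient {V : Type} [Fintype V] [DecidableEq V] (H : SimpleGraph V) [DecidableRel H.Adj]
    (n : V → ℕ) (D : ℕ) (h1 : ∀ v, ∑ u, (if H.Adj v u then n u else 0) ≤ D)
    (h2 : ∀ v, Odd (n v) → (∑ u, if H.Adj v u then n u else 0) * n v + D ≤ D * n v) :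
    ∃ (a : V → V → ℕ) (s : V → ℕ), (∀ v, s v ≤ n v) ∧ (∀ u v, ¬ H.Adj u v → a u v = 0) ∧
      (∀ u v, H.Adj u v → a u v + a v u = n u * n v) ∧ (∀ v, ∑ u, a v u ≤ D * s v) ∧
      ∀ v, ∑ u, a u v ≤ D * (n v - s v) := by
  classical
  obtain ⟨y, hy1, hy2, hy3, hy4⟩ := Pool.Agent.N887.TCBAL.bal
    (⟨fun u v => H.Adj u v ∧ Odd (n u) ∧ Odd (n v), ⟨fun _ _ h => ⟨h.1.symm, h.2.2, h.2.1⟩⟩,
      ⟨fun x h => h.1.ne rfl⟩⟩ : SimpleGraph V)
  have hpar : ∀ u v, H.Adj u v → ∃ b : ℕ, 2 * (b : ℤ) = (n u : ℤ) * n v + y u v := by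
    intro u v huv
    by_cases ho : Odd (n u) ∧ Odd (n v)
    · obtain ⟨⟨i, hi⟩, ⟨j, hj⟩⟩ := ho
      rcases hy3 u v ⟨huv, ⟨i, hi⟩, ⟨j, hj⟩⟩ with h | h
      · refine ⟨2 * i * j + i + j + 1, ?_⟩
        rw [h, hi, hj]
        push_cast
        ring
      · refine ⟨2 * i * j + i + j, ?_⟩
        rw [h, hi, hj]
        push_cast
        ring
    · have h0 : y u v = 0 := hy2 u v (fun h => ho h.2)
      have h3 : Even (n u * n v) := by
        rw [Nat.even_mul]
        by_contra hcon
        push Not at hcon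
        exact ho ⟨Nat.not_even_iff_odd.mp hcon.1, Nat.not_even_iff_odd.mp hcon.2⟩
      obtain ⟨b, hb⟩ := h3
      refine ⟨b, ?_⟩
      rw [h0]
      have : ((n u * n v : ℕ) : ℤ) = ((b + b : ℕ) : ℤ) := by rw [hb]
      push_cast at this
      linarith
  have hex : ∀ u v, ∃ b : ℕ, (H.Adj u v → 2 * (b : ℤ) = (n u : ℤ) * n v + y u v) ∧
      (¬ H.Adj u v → b = 0) := by
    intro u v
    by_cases h : H.Adj u v
    · obtain ⟨b, hb⟩ := hpar u v h
      exact ⟨b, fun _ => hb, fun h' => absurd h h'⟩
    · exact ⟨0, fun h' => absurd h' h, fun _ => rfl⟩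
  choose a ha1 ha2 using hex
  set dg : V → ℕ := fun v => ∑ u, if H.Adj v u then n u else 0 with hdg
  set X : V → ℤ := fun v => ∑ u, y v u with hX
  have hadj0 : ∀ u v, ¬ H.Adj u v → y u v = 0 := fun u v h => hy2 u v (fun h' => h h'.1)
  have hout : ∀ v, 2 * ((∑ u, a v u : ℕ) : ℤ) = n v * dg v + X v := by
    intro v
    simp only [hdg, hX]
    push_cast
    rw [mul_sum, mul_sum, ← sum_add_distrib]
    refine sum_congr rfl fun u _ => ?_
    by_cases h : H.Adj v u
    · rw [ha1 v u h, if_pos h]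
    · rw [ha2 v u h, if_neg h, hadj0 v u h]
      simp
  have hin : ∀ v, 2 * ((∑ u, a u v : ℕ) : ℤ) = n v * dg v - X v := by
    intro v
    simp only [hdg, hX]
    push_cast
    rw [mul_sum, mul_sum, ← sum_sub_distrib]
    refine sum_congr rfl fun u _ => ?_
    by_cases h : H.Adj v u
    · rw [ha1 u v h.symm, if_pos h, hy1 u v]
      ring
    · rw [ha2 u v (fun h' => h h'.symm), if_neg h, hadj0 v u h]
      simp
  have hXd : ∀ v, |X v| ≤ dg v := by
    intro v
    simp only [hdg, hX]
    push_cast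
    refine le_trans (abs_sum_le_sum_abs _ _) (sum_le_sum fun u _ => ?_)
    by_cases h : H.Adj v u
    · rw [if_pos h]
      by_cases ho : Odd (n v) ∧ Odd (n u)
      · have h3 : 1 ≤ n u := ho.2.pos
        rcases hy3 v u ⟨h, ho⟩ with h4 | h4 <;> rw [h4] <;> simp <;> omega
      · rw [hy2 v u (fun h' => ho h'.2)]
        simp
    · rw [if_neg h, hadj0 v u h]
      simp
  have hXe : ∀ v, Even (n v) → X v = 0 := by
    intro v hv
    simp only [hX]
    refine sum_eq_zero fun u _ => hy2 v u ?_
    rintro ⟨-, h, -⟩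
    exact (Nat.not_even_iff_odd.mpr h) hv
  have hdD : ∀ v, dg v ≤ D := h1
  refine ⟨a, fun v => if Even (n v) then n v / 2 else if 0 ≤ X v then (n v + 1) / 2 else n v / 2,
    ?_, ha2, ?_, ?_, ?_⟩
  · intro v
    beta_reduce
    split_ifs with h3 h4
    · omega
    · have := (Nat.not_even_iff_odd.mp h3).pos
      omega
    · omega
  · intro u v huv
    have h3 := ha1 u v huv
    have h4 := ha1 v u huv.symm
    rw [hy1 v u] at h4
    zify
    linarith
  · intro v
    beta_reduce
    have h3 := hout v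
    have h4 := hXd v
    have h5 := hdD v
    zify
    split_ifs with h6 h7
    · obtain ⟨k, hk⟩ := h6
      have h8 : (n v / 2 : ℕ) = k := by omega
      rw [hXe v ⟨k, hk⟩, hk] at h3
      have h9 : ((n v : ℤ) / 2) = k := by
        have := congrArg (Nat.cast : ℕ → ℤ) h8
        push_cast at this
        exact this
      rw [h9]
      push_cast at h3
      have h10 : (k : ℤ) * dg v ≤ k * D := by
        exact_mod_cast Nat.mul_le_mul_left k h5
      linarith
    · obtain ⟨k, hk⟩ := Nat.not_even_iff_odd.mp h6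
      have h9 : (((n v : ℤ) + 1) / 2) = k + 1 := by
        rw [hk]
        push_cast
        omega
      rw [h9]
      rw [hk] at h3
      push_cast at h3
      have h11 := le_abs_self (X v)
      have h10 : ((k : ℤ) + 1) * dg v ≤ (k + 1) * D := by
        exact_mod_cast Nat.mul_le_mul_left (k + 1) h5
      nlinarith
    · obtain ⟨k, hk⟩ := Nat.not_even_iff_odd.mp h6
      have h9 : ((n v : ℤ) / 2) = k := by
        rw [hk]
        push_cast
        omega
      rw [h9]
      have h12 := h2 v ⟨k, hk⟩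
      rw [hk] at h3 h12
      push_cast at h3
      have h10 : (dg v : ℤ) * (2 * k + 1) + D ≤ D * (2 * k + 1) := by
        exact_mod_cast h12
      push Not at h7
      nlinarith
  · intro v
    beta_reduce
    have h3 := hin v
    have h4 := hXd v
    have h5 := hdD v
    split_ifs with h6 h7
    · obtain ⟨k, hk⟩ := h6
      have h8 : n v - n v / 2 = k := by omega
      rw [h8]
      rw [hXe v ⟨k, hk⟩, hk] at h3
      zify
      push_cast at h3
      have h10 : (k : ℤ) * dg v ≤ k * D := by
        exact_mod_cast Nat.mul_le_mul_left k h5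
      linarith
    · obtain ⟨k, hk⟩ := Nat.not_even_iff_odd.mp h6
      have h8 : n v - (n v + 1) / 2 = k := by omega
      rw [h8]
      have h12 := h2 v ⟨k, hk⟩
      rw [hk] at h3 h12
      zify
      push_cast at h3
      have h10 : (dg v : ℤ) * (2 * k + 1) + D ≤ D * (2 * k + 1) := by
        exact_mod_cast h12
      nlinarith
    · obtain ⟨k, hk⟩ := Nat.not_even_iff_odd.mp h6
      have h8 : n v - n v / 2 = k + 1 := by omega
      rw [h8]
      rw [hk] at h3
      zify
      push_cast at h3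
      have h11 := neg_abs_le (X v)
      have h10 : ((k : ℤ) + 1) * dg v ≤ (k + 1) * D := by
        exact_mod_cast Nat.mul_le_mul_left (k + 1) h5
      nlinarith

end Pool.Agent.N347.TC
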