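import Pool.Agent.N347.TC.Twin

set_option autoImplicit false

/-!
# Project TC: list edge colourings and total labellings of graphs with even classes of twins
-/

namespace Pool.Agent.N347.TC

open Finset

/-- The class of (false) twins of `x`: the vertices with the same neighbours. -/
def tw {W : Type} (G : SimpleGraph W) (x : W) : Set W := {y | ∀ z, G.Adj x z ↔ G.Adj y z}

/-- From functions of two vertices to functions of pairs. -/
theorem to_sym {W : Type} (G : SimpleGraph W) (g : W → W → ℕ)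
    (hs : ∀ x y, G.Adj x y → g x y = g y x) :
    ∃ c : Sym2 W → ℕ, ∀ x y, G.Adj x y → c s(x, y) = g x y := by
  refine ⟨fun e => g e.out.1 e.out.2, fun x y hxy => ?_⟩
  have h1 : s((s(x, y) : Sym2 W).out.1, (s(x, y) : Sym2 W).out.2) = s(x, y) := by
    exact Quot.out_eq _
  beta_reduce
  rcases Sym2.eq_iff.mp h1 with ⟨h2, h3⟩ | ⟨h2, h3⟩
  · rw [h2, h3]
  · rw [h2, h3]
    exact (hs x y hxy).symm

/-- Representatives of the classes of twins. -/
theorem reps {W : Type} (G : SimpleGraph W) :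
    ∃ r : W → W, (∀ x, r x ∈ tw G x) ∧ ∀ x y, r x = r y ↔ y ∈ tw G x := by
  classical
  let S : Setoid W := ⟨fun x y => ∀ z, G.Adj x z ↔ G.Adj y z,
    ⟨fun _ _ => Iff.rfl, fun h z => (h z).symm, fun h h' z => (h z).trans (h' z)⟩⟩
  refine ⟨fun x => (Quotient.mk S x).out, fun x => ?_, fun x y => ?_⟩
  · have h := Quotient.mk_out (s := S) x
    exact fun z => (h z).symm
  · constructor
    · intro h
      have h1 : Quotient.mk S x = Quotient.mk S y := by
        have h2 := congrArg (Quotient.mk S) h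
        simpa using h2
      exact Quotient.exact h1
    · intro h
      have h1 : Quotient.mk S x = Quotient.mk S y := Quotient.sound h
      show (Quotient.mk S x).out = (Quotient.mk S y).out
      rw [h1]

/-- List edge colourings, lists given by a function on the representatives. -/
theorem twin_list {W : Type} [Finite W] (G : SimpleGraph W) (D : ℕ)
    (hD : ∀ x, (G.neighborSet x).ncard ≤ D)
    (hcl : ∀ x, Even (tw G x).ncard ∨
      (G.neighborSet x).ncard * (tw G x).ncard + D ≤ D * (tw G x).ncard)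
    (r : W → W) (hr1 : ∀ x, r x ∈ tw G x) (hr2 : ∀ x y, r x = r y ↔ y ∈ tw G x)
    (L : W → W → Finset ℕ) (hLs : ∀ u v, L u v = L v u)
    (hL : ∀ u v, G.Adj u v → D ≤ (L u v).card) :
    ∃ c : Sym2 W → ℕ, (∀ x y, G.Adj x y → c s(x, y) ∈ L (r x) (r y)) ∧
      ∀ x y z, G.Adj x y → G.Adj x z → y ≠ z → c s(x, y) ≠ c s(x, z) := by
  classical
  have := Fintype.ofFinite W
  have hadj : ∀ x y, G.Adj x y ↔ G.Adj (r x) (r y) := by
    intro x y
    rw [hr1 x y, G.adj_comm, hr1 y (r x), G.adj_comm]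
  have hadj' : ∀ x y, G.Adj x y ↔ G.Adj x (r y) := by
    intro x y
    rw [G.adj_comm, hr1 y x, G.adj_comm]
  set n : W → ℕ := fun v => (univ.filter fun x => r x = v).card with hn
  have hdeg : ∀ v, ∑ u, (if G.Adj v u then n u else 0) = (G.neighborSet v).ncard := by
    intro v
    have h1 : (G.neighborSet v).ncard = (univ.filter fun x => G.Adj v x).card := by
      rw [Set.ncard_eq_toFinset_card']
      congr 1
      ext u
      simp
    rw [h1, card_eq_sum_card_fiberwise (f := r) (t := univ) (fun _ _ => by simp)]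
    refine sum_congr rfl fun u _ => ?_
    by_cases h : G.Adj v u
    · rw [if_pos h]
      simp only [hn]
      congr 1
      ext x
      simp only [mem_filter, mem_univ, true_and]
      constructor
      · intro hx
        refine ⟨(hadj' v x).mpr ?_, hx⟩
        rw [hx]
        exact h
      · exact fun hx => hx.2
    · rw [if_neg h, eq_comm, card_eq_zero, filter_eq_empty_iff]
      intro x hx hxu
      refine h ?_
      rw [← hxu]
      exact (hadj' v x).mp (mem_filter.mp hx).2
  have hcard : ∀ v, Odd (n v) → n v = (tw G v).ncard := by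
    intro v hv
    obtain ⟨x0, hx0⟩ := card_pos.mp hv.pos
    have hx1 : r x0 = v := (mem_filter.mp hx0).2
    have h1 : r v = v := by
      have h2 : r v = r x0 := (hr2 v x0).mpr (by
        have h3 := hr1 x0
        rw [hx1] at h3
        exact fun z => (h3 z).symm)
      rw [h2, hx1]
    rw [Set.ncard_eq_toFinset_card']
    simp only [hn]
    congr 1
    ext x
    simp only [mem_filter, mem_univ, true_and, Set.mem_toFinset]
    constructor
    · intro h
      exact (hr2 v x).mp (by rw [h1, h])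
    · intro h
      rw [← (hr2 v x).mpr h, h1]
  obtain ⟨a, s, hs, ha0, ha1, ha2, ha3⟩ := orient G n D (fun v => by rw [hdeg]; exact hD v)
    (fun v hv => by
      rw [hdeg, hcard v hv]
      rcases hcl v with h | h
      · rw [hcard v hv] at hv
        exact absurd h (Nat.not_even_iff_odd.mpr hv)
      · exact h)
  obtain ⟨g, hg1, hg2⟩ := ori2 G n D a s hs ha0 ha1 ha2 ha3 L hLs hL
  obtain ⟨e, he1, he2⟩ := spread r 1 n (fun v => by rw [one_mul])
  set φ : W → W × ℕ := fun x => (r x, e x) with hφ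
  have hφi : Function.Injective φ := by
    intro x y h
    have h1 := he2 (φ x)
    rw [card_le_one] at h1
    exact h1 x (by simp [hφ]) y (by simpa [hφ] using h.symm)
  have hφ2 : ∀ x, (φ x).2 < n (φ x).1 := fun x => he1 x
  obtain ⟨c, hc⟩ := to_sym G (fun x y => g (φ x) (φ y)) (fun x y hxy =>
    (hg1 (φ x) (φ y) (hφ2 x) (hφ2 y) ((hadj x y).mp hxy)).1)
  refine ⟨c, fun x y hxy => ?_, fun x y z hxy hxz hyz => ?_⟩
  · rw [hc x y hxy]
    exact (hg1 (φ x) (φ y) (hφ2 x) (hφ2 y) ((hadj x y).mp hxy)).2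
  · rw [hc x y hxy, hc x z hxz]
    exact hg2 (φ x) (φ y) (φ z) (hφ2 x) (hφ2 y) (hφ2 z) ((hadj x y).mp hxy) ((hadj x z).mp hxz)
      (fun h => hyz (hφi h))

/-- List edge colourings from lists that depend only on the classes of twins of the ends. -/
theorem twin_lists {W : Type} [Finite W] (G : SimpleGraph W) (D : ℕ)
    (hD : ∀ x, (G.neighborSet x).ncard ≤ D)
    (hcl : ∀ x, Even (tw G x).ncard ∨
      (G.neighborSet x).ncard * (tw G x).ncard + D ≤ D * (tw G x).ncard)
    (L : Sym2 W → Finset ℕ) (hLi : ∀ x y x' y', G.Adj x y → x' ∈ tw G x → y' ∈ tw G y →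
      L s(x', y') = L s(x, y)) (hL : ∀ x y, G.Adj x y → D ≤ (L s(x, y)).card) :
    ∃ c : Sym2 W → ℕ, (∀ x y, G.Adj x y → c s(x, y) ∈ L s(x, y)) ∧
      ∀ x y z, G.Adj x y → G.Adj x z → y ≠ z → c s(x, y) ≠ c s(x, z) := by
  obtain ⟨r, hr1, hr2⟩ := reps G
  obtain ⟨c, hc1, hc2⟩ := twin_list G D hD hcl r hr1 hr2 (fun u v => L s(u, v))
    (fun u v => by rw [Sym2.eq_swap]) hL
  refine ⟨c, fun x y hxy => ?_, hc2⟩
  rw [← hLi x y (r x) (r y) hxy (hr1 x) (hr1 y)]
  exact hc1 x y hxy

/-- Total labellings. -/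
theorem twin_total {W : Type} [Finite W] (G : SimpleGraph W) (D p : ℕ) (hp : 1 ≤ p)
    (hD : ∀ x, (G.neighborSet x).ncard ≤ D)
    (hcl : ∀ x, Even (tw G x).ncard ∨
      (G.neighborSet x).ncard * (tw G x).ncard + D ≤ D * (tw G x).ncard) :
    ∃ (fV : W → ℕ) (fE : Sym2 W → ℕ),
      (∀ v, fV v < D + 2 * (2 * p - 1)) ∧ (∀ e ∈ G.edgeSet, fE e < D + 2 * (2 * p - 1)) ∧
      (∀ u v, G.Adj u v → fV u ≠ fV v) ∧
      (∀ u v w, G.Adj u v → G.Adj u w → v ≠ w → fE s(u, v) ≠ fE s(u, w)) ∧
      (∀ u v, G.Adj u v → (p : ℤ) ≤ |(fV u : ℤ) - (fE s(u, v) : ℤ)|) := by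
  classical
  obtain ⟨c⟩ := TB.greedy G D hD
  obtain ⟨r, hr1, hr2⟩ := reps G
  have hadj : ∀ x y, G.Adj x y ↔ G.Adj (r x) (r y) := by
    intro x y
    rw [hr1 x y, G.adj_comm, hr1 y (r x), G.adj_comm]
  set L : W → W → Finset ℕ := fun u v =>
    range (D + 2 * (2 * p - 1)) \ (win p (c u) ∪ win p (c v)) with hL
  obtain ⟨g, hg1, hg2⟩ := twin_list G D hD hcl r hr1 hr2 L
    (fun u v => by simp only [hL, union_comm]) (fun u v _ => by
      have h1 := win_card p (c u) hp
      have h2 := win_card p (c v) hp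
      have h3 := card_union_le (win p (c u)) (win p (c v))
      have h4 := le_card_sdiff (win p (c u) ∪ win p (c v)) (range (D + 2 * (2 * p - 1)))
      rw [card_range] at h4
      simp only [hL]
      omega)
  have hmem : ∀ x y, G.Adj x y → g s(x, y) < D + 2 * (2 * p - 1) ∧
      g s(x, y) ∉ win p (c (r x)) := by
    intro x y hxy
    have h1 := hg1 x y hxy
    simp only [hL, mem_sdiff, mem_range, mem_union, not_or] at h1
    exact ⟨h1.1, h1.2.1⟩
  refine ⟨fun x => (c (r x) : ℕ), g, fun x => ?_, fun s hs => ?_, fun x y hxy h => ?_, hg2,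
    fun x y hxy => ?_⟩
  · have := (c (r x)).2
    show ((c (r x) : Fin (D + 1)) : ℕ) < _
    omega
  · induction s with
    | h x y => exact (hmem x y hs).1
  · exact c.valid ((hadj x y).mp hxy) (Fin.ext h)
  · exact not_mem_win p _ _ hp (hmem x y hxy).2

end Pool.Agent.N347.TC
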